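import Mathlib

/-!
# Colourings of families of homothets of truncated parallelotopes
-/

set_option autoImplicit false

namespace C1H

open Finset

/-- the sign of a Boolean -/
def sg (s : Bool) : ℝ := if s then 1 else -1

lemma sg_mul_self (s : Bool) : sg s * sg s = 1 := by cases s <;> simp [sg]

lemma sg_not (s : Bool) : sg (!s) = - sg s := by cases s <;> simp [sg]

lemma abs_sg (s : Bool) : |sg s| = 1 := by cases s <;> simp [sg]

/-- the coordinates `± 1` of `x` have the signs `s` -/
def Fits {κ : Type} (x : κ → ℝ) (s : κ → Bool) : Prop :=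
  ∀ a, (x a = 1 → s a = true) ∧ (x a = -1 → s a = false)

/-- a hyperplane which separates the vertex `b` from its neighbours: points beyond it are near `b` -/
lemma near {k : ℕ} (γ : Fin k → ℝ) (b : Fin k → Bool) (h1 : ∑ a, γ a * sg (b a) < -1)
    (h2 : ∀ a, -1 < ∑ a', γ a' * sg (b a') - 2 * (γ a * sg (b a)))
    (y : Fin k → ℝ) (hy : ∀ a, |y a| ≤ 1) (h : ∑ a, γ a * y a ≤ -1) :
    ∑ a, (1 - sg (b a) * y a) < 2 := by
  by_contra hcon
  push Not at hcon
  set β := ∑ a, γ a * sg (b a) with hβ
  have hw : ∀ a, 0 ≤ 1 - sg (b a) * y a := by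
    intro a
    have : |sg (b a) * y a| ≤ 1 := by rw [abs_mul, abs_sg, one_mul]; exact hy a
    linarith [(abs_le.1 this).2]
  have hs : ∑ a, γ a * y a = β - ∑ a, γ a * sg (b a) * (1 - sg (b a) * y a) := by
    rw [hβ, ← Finset.sum_sub_distrib]
    refine Finset.sum_congr rfl fun a _ => ?_
    have := sg_mul_self (b a)
    linear_combination (- γ a * y a) * this
  have hpos : 0 < ∑ a, ((1 + β) / 2 - γ a * sg (b a)) * (1 - sg (b a) * y a) := by
    have hex : ∃ a ∈ (univ : Finset (Fin k)), 0 < 1 - sg (b a) * y a := by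
      by_contra hno
      push Not at hno
      have : ∑ a, (1 - sg (b a) * y a) ≤ 0 := Finset.sum_nonpos fun a ha => hno a ha
      linarith
    refine Finset.sum_pos' (fun a _ => mul_nonneg ?_ (hw a)) ?_
    · have := h2 a; linarith
    · obtain ⟨a, ha, ha'⟩ := hex
      exact ⟨a, ha, mul_pos (by have := h2 a; linarith) ha'⟩
  have hexp : ∑ a, ((1 + β) / 2 - γ a * sg (b a)) * (1 - sg (b a) * y a) =
      ((1 + β) / 2) * ∑ a, (1 - sg (b a) * y a) -
        ∑ a, γ a * sg (b a) * (1 - sg (b a) * y a) := by
    rw [Finset.mul_sum, ← Finset.sum_sub_distrib]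
    exact Finset.sum_congr rfl fun a _ => by ring
  rw [hexp] at hpos
  nlinarith

/-- in particular such points fit `b` -/
lemma fits_of_near {k : ℕ} (b : Fin k → Bool) (y : Fin k → ℝ) (hy : ∀ a, |y a| ≤ 1)
    (h : ∑ a, (1 - sg (b a) * y a) < 2) : Fits y b := by
  have hw : ∀ a, 0 ≤ 1 - sg (b a) * y a := by
    intro a
    have : |sg (b a) * y a| ≤ 1 := by rw [abs_mul, abs_sg, one_mul]; exact hy a
    linarith [(abs_le.1 this).2]
  have h1 : ∀ a, 1 - sg (b a) * y a < 2 := fun a =>
    lt_of_le_of_lt (Finset.single_le_sum (f := fun a => 1 - sg (b a) * y a)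
      (fun a _ => hw a) (mem_univ a)) h
  intro a
  have h2 := h1 a
  constructor
  · intro h3
    rw [h3] at h2
    cases hb : b a with
    | true => rfl
    | false => rw [hb] at h2; simp only [sg, Bool.false_eq_true, if_false] at h2; norm_num at h2
  · intro h3
    rw [h3] at h2
    cases hb : b a with
    | false => rfl
    | true => rw [hb] at h2; simp only [sg, if_true] at h2; norm_num at h2

/-- two vertices near the same point differ in at most one place -/
lemma card_diff {k : ℕ} (b b' : Fin k → Bool) (y : Fin k → ℝ) (hy : ∀ a, |y a| ≤ 1)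
    (h : ∑ a, (1 - sg (b a) * y a) < 2) (h' : ∑ a, (1 - sg (b' a) * y a) < 2) :
    (univ.filter fun a => b a ≠ b' a).card ≤ 1 := by
  have hw : ∀ (b : Fin k → Bool) a, 0 ≤ 1 - sg (b a) * y a := by
    intro b a
    have : |sg (b a) * y a| ≤ 1 := by rw [abs_mul, abs_sg, one_mul]; exact hy a
    linarith [(abs_le.1 this).2]
  by_contra hcon
  push Not at hcon
  have h1 : ∑ a ∈ univ.filter (fun a => b a ≠ b' a), (2 : ℝ) ≤
      ∑ a, ((1 - sg (b a) * y a) + (1 - sg (b' a) * y a)) := by
    refine (Finset.sum_le_sum (fun a ha => ?_)).trans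
      (Finset.sum_le_univ_sum_of_nonneg fun a => add_nonneg (hw b a) (hw b' a))
    have h2 := (Finset.mem_filter.1 ha).2
    have h3 : b' a = !(b a) := by
      cases h4 : b a <;> cases h5 : b' a <;> simp_all
    rw [h3, sg_not]
    linarith
  rw [Finset.sum_const, nsmul_eq_mul, Finset.sum_add_distrib] at h1
  have h2 : (2 : ℝ) ≤ ((univ.filter fun a => b a ≠ b' a).card : ℝ) := by exact_mod_cast hcon
  linarith

/-- the parity of a sign vector -/
def par {k : ℕ} (b : Fin k → Bool) : ℤ := ∏ a, if b a then 1 else -1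

lemma par_cases {k : ℕ} (b : Fin k → Bool) : par b = 1 ∨ par b = -1 := by
  unfold par
  refine Finset.prod_induction _ (fun z : ℤ => z = 1 ∨ z = -1) ?_ (Or.inl rfl) ?_
  · rintro x y (rfl | rfl) (rfl | rfl) <;> simp
  · intro a _
    cases b a <;> simp

lemma par_update {k : ℕ} (b : Fin k → Bool) (a : Fin k) :
    par (Function.update b a (!b a)) = - par b := by
  unfold par
  rw [← Finset.mul_prod_erase univ _ (mem_univ a), ← Finset.mul_prod_erase univ _ (mem_univ a)]
  have h1 : ∏ x ∈ univ.erase a, (if Function.update b a (!b a) x then (1 : ℤ) else -1) =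
      ∏ x ∈ univ.erase a, (if b x then (1 : ℤ) else -1) := by
    refine Finset.prod_congr rfl fun x hx => ?_
    rw [Function.update_of_ne (Finset.ne_of_mem_erase hx)]
  rw [h1, Function.update_self]
  cases b a <;> simp

/-- cuts `|γ c · y| ≤ 1` of the cube `[-1, 1]^k`: the inequality `γ c · y < -1` cuts off the vertex
`b c`, but none of its neighbours, and no point of the cube is cut off by two of the cuts -/
structure Cuts {k : ℕ} {C : Type} (γ : C → Fin k → ℝ) (b : C → Fin k → Bool) : Prop where
  beyond : ∀ c, ∑ a, γ c a * sg (b c a) < -1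
  neigh : ∀ c a, -1 < ∑ a', γ c a' * sg (b c a') - 2 * (γ c a * sg (b c a))
  disj : ∀ c c', c ≠ c' → ∀ y : Fin k → ℝ, (∀ a, |y a| ≤ 1) → 1 < |∑ a, γ c a * y a| →
    |∑ a, γ c' a * y a| < 1

/-- the vertices which are cut off -/
def cutV {k : ℕ} {C : Type} (b : C → Fin k → Bool) (p : C × Bool) : Fin k → Bool :=
  fun a => xor p.2 (b p.1 a)

lemma Cuts.abs_vertex {k : ℕ} {C : Type} {γ : C → Fin k → ℝ} {b : C → Fin k → Bool}
    (h : Cuts γ b) (p : C × Bool) : 1 < |∑ a, γ p.1 a * sg (cutV b p a)| := by
  obtain ⟨c, s⟩ := p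
  have h1 := h.beyond c
  cases s with
  | false =>
    have e : ∀ a, cutV b (c, false) a = b c a := fun a => by simp [cutV]
    simp only [e]
    rw [abs_of_neg (by linarith)]
    linarith
  | true =>
    have e : ∀ a, cutV b (c, true) a = !(b c a) := fun a => by simp [cutV]
    simp only [e, sg_not, mul_neg, Finset.sum_neg_distrib]
    rw [abs_neg, abs_of_neg (by linarith)]
    linarith

lemma Cuts.inj {k : ℕ} {C : Type} {γ : C → Fin k → ℝ} {b : C → Fin k → Bool}
    (h : Cuts γ b) (hk : 0 < k) : Function.Injective (cutV b) := by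
  rintro ⟨c, s⟩ ⟨c', s'⟩ heq
  by_cases hc : c = c'
  · subst hc
    have h1 := congrFun heq ⟨0, hk⟩
    simp only [cutV] at h1
    have : s = s' := by
      revert h1
      cases s <;> cases s' <;> cases b c ⟨0, hk⟩ <;> simp
    rw [this]
  · exfalso
    have h1 := h.abs_vertex (c, s)
    have h2 := h.abs_vertex (c', s')
    have h3 := h.disj c c' hc (fun a => sg (cutV b (c, s) a)) (fun a => (abs_sg _).le) h1
    rw [heq] at h3
    exact absurd h2 (not_lt.2 h3.le)

/-- the vertices which get a pattern of their own -/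
lemma exists_R {k : ℕ} {C : Type} [Fintype C] (b : C → Fin k → Bool) (π : C → ℝ)
    (B : Finset (Fin k → Bool)) (hB : B.card ≤ 2 * Fintype.card C) (hbB : ∀ c, b c ∈ B) :
    ∃ (R : Finset (Fin k → Bool)) (ε : ℤ), R.card ≤ Fintype.card C ∧ (ε = 1 ∨ ε = -1) ∧
      (∀ v ∈ B, par v = ε → v ∈ R) ∧ ∀ c, (∀ c', c' ≠ c → π c' < π c) → b c ∈ R := by
  classical
  rcases isEmpty_or_nonempty C with hC | hC
  · refine ⟨∅, 1, by simp, Or.inl rfl, fun v hv => ?_, fun c => (hC.false c).elim⟩
    rw [Fintype.card_eq_zero, mul_zero] at hB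
    have := Finset.card_eq_zero.1 (Nat.le_zero.1 hB)
    rw [this] at hv
    exact absurd hv (Finset.notMem_empty v)
  · obtain ⟨c₀, -, hc₀⟩ := Finset.exists_max_image (univ : Finset C) π univ_nonempty
    have huniq : ∀ c, (∀ c', c' ≠ c → π c' < π c) → c = c₀ := by
      intro c hc
      by_contra hne
      have h1 := hc c₀ (Ne.symm hne)
      have h2 := hc₀ c (mem_univ c)
      linarith
    have hsplit := Finset.card_filter_add_card_filter_not (s := B) (fun v => par v = par (b c₀))
    by_cases hcard : (B.filter fun v => par v = par (b c₀)).card ≤ Fintype.card C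
    · refine ⟨B.filter fun v => par v = par (b c₀), par (b c₀), hcard, par_cases _,
        fun v hv hv' => Finset.mem_filter.2 ⟨hv, hv'⟩, fun c hc => ?_⟩
      rw [huniq c hc]
      exact Finset.mem_filter.2 ⟨hbB c₀, rfl⟩
    · refine ⟨insert (b c₀) (B.filter fun v => ¬ par v = par (b c₀)), - par (b c₀), ?_, ?_,
        fun v hv hv' => Finset.mem_insert_of_mem (Finset.mem_filter.2 ⟨hv, ?_⟩), fun c hc => ?_⟩
      · have := Finset.card_insert_le (b c₀) (B.filter fun v => ¬ par v = par (b c₀))
        omega
      · rcases par_cases (b c₀) with h1 | h1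
        · right; rw [h1]
        · left; rw [h1]; norm_num
      · rw [hv']
        rcases par_cases (b c₀) with h1 | h1 <;> rw [h1] <;> norm_num
      · rw [huniq c hc]
        exact Finset.mem_insert_self _ _

/-- the covering by `2 ^ k` patterns -/
theorem cover {k : ℕ} (hk : 3 ≤ k) {C : Type} [Fintype C] (γ : C → Fin k → ℝ)
    (b : C → Fin k → Bool) (h : Cuts γ b) (π : C → ℝ) (hπ : ∀ c, 0 ≤ π c) :
    ∃ S : Finset ((Fin k → Bool) × (C → Bool)), S.card ≤ 2 ^ k ∧
      ∀ (x : Fin k → ℝ) (t : ℝ), 0 < t → (∀ a, |x a| ≤ 1) →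
        (∀ c, |∑ a, γ c a * x a + π c * t| ≤ 1) →
        ∃ s ∈ S, Fits x s.1 ∧ Fits (fun c => ∑ a, γ c a * x a + π c * t) s.2 := by
  classical
  set B : Finset (Fin k → Bool) := univ.image (cutV b) with hB
  have hBcard : B.card = 2 * Fintype.card C := by
    rw [hB, Finset.card_image_of_injective _ (h.inj (by omega)), Finset.card_univ,
      Fintype.card_prod, Fintype.card_bool, mul_comm]
  have hbB : ∀ c, b c ∈ B := fun c => Finset.mem_image.2 ⟨(c, false), mem_univ _, by
    funext a; simp [cutV]⟩
  obtain ⟨R, ε, hRcard, hε, hRpar, hRmax⟩ := exists_R b π B hBcard.le hbB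
  set A : Finset (Fin k → Bool) := univ \ (B \ R) with hA
  set τ : C → C → Bool := fun c c'' =>
    !(decide (c'' = c ∨ (π c'' = 0 ∧ (univ.filter fun a => b c a ≠ b c'' a).card ≤ 1))) with hτ
  set S : Finset ((Fin k → Bool) × (C → Bool)) :=
    A.image (fun v => (v, fun _ => true)) ∪ univ.image (fun c => (b c, τ c)) with hS
  have hτf : ∀ c c'', τ c c'' = false ↔
      (c'' = c ∨ (π c'' = 0 ∧ (univ.filter fun a => b c a ≠ b c'' a).card ≤ 1)) := by
    intro c c''
    simp only [hτ, Bool.not_eq_false', decide_eq_true_eq]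
  have hτt : ∀ c c'', τ c c'' = true ↔
      ¬ (c'' = c ∨ (π c'' = 0 ∧ (univ.filter fun a => b c a ≠ b c'' a).card ≤ 1)) := by
    intro c c''
    rw [← hτf, Bool.not_eq_false]
  refine ⟨S, ?_, ?_⟩
  · have h1 : S.card ≤ A.card + Fintype.card C :=
      (Finset.card_union_le _ _).trans (add_le_add Finset.card_image_le
        (Finset.card_image_le.trans (by rw [Finset.card_univ])))
    have h2 : A.card = 2 ^ k - (B \ R).card := by
      rw [hA, Finset.card_sdiff_of_subset (Finset.subset_univ _), Finset.card_univ,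
        Fintype.card_fun, Fintype.card_bool, Fintype.card_fin]
    have h3 : B.card - R.card ≤ (B \ R).card := Finset.le_card_sdiff R B
    have h4 : (B \ R).card ≤ 2 ^ k := by
      have := Finset.card_le_univ (B \ R)
      rwa [Fintype.card_fun, Fintype.card_bool, Fintype.card_fin] at this
    omega
  · intro x t ht hx hv
    set v : C → ℝ := fun c => ∑ a, γ c a * x a + π c * t with hvdef
    have hnear : ∀ c, ∑ a, γ c a * x a ≤ -1 → ∑ a, (1 - sg (b c a) * x a) < 2 := fun c hc =>
      near (γ c) (b c) (h.beyond c) (h.neigh c) x hx hc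
    have hSc : ∀ c, (b c, τ c) ∈ S := fun c =>
      Finset.mem_union_right _ (Finset.mem_image.2 ⟨c, mem_univ c, rfl⟩)
    by_cases hN : ∃ c, v c = -1
    · -- some label is at `-1`
      obtain ⟨c, hc⟩ := hN
      have hπt : ∀ c, 0 ≤ π c * t := fun c => mul_nonneg (hπ c) ht.le
      have hγ : ∀ c, v c = -1 → ∑ a, γ c a * x a ≤ -1 := fun c hc => by
        have h1 : ∑ a, γ c a * x a + π c * t = -1 := hc
        have := hπt c
        linarith
      have hγc := hγ c hc
      refine ⟨(b c, τ c), hSc c, fits_of_near (b c) x hx (hnear c hγc), fun c'' => ⟨fun h1 => ?_,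
        fun h1 => ?_⟩⟩
      · rw [hτt]
        rintro (rfl | ⟨h2, h3⟩)
        · change v c'' = 1 at h1
          rw [hc] at h1; norm_num at h1
        · -- opposite ends of two adjacent cuts
          have h4 : ∑ a, γ c'' a * x a = 1 := by
            have : ∑ a, γ c'' a * x a + π c'' * t = 1 := h1
            rw [h2, zero_mul, add_zero] at this
            exact this
          have h5 : ∑ a, (1 - sg (b c'' a) * (-x a)) < 2 :=
            near (γ c'') (b c'') (h.beyond c'') (h.neigh c'') (fun a => -x a)
              (fun a => by rw [abs_neg]; exact hx a)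
              (by simp only [mul_neg, Finset.sum_neg_distrib]; rw [h4])
          have h6 : ∑ a, (1 - sg (!(b c'' a)) * x a) < 2 := by
            refine lt_of_eq_of_lt (Finset.sum_congr rfl fun a _ => ?_) h5
            rw [sg_not]; ring
          have h7 := card_diff (b c) (fun a => !(b c'' a)) x hx (hnear c hγc) h6
          have h8 := Finset.card_filter_add_card_filter_not (s := (univ : Finset (Fin k)))
            (fun a => b c a ≠ b c'' a)
          rw [Finset.card_univ, Fintype.card_fin] at h8
          have h9 : (univ.filter fun a => ¬ b c a ≠ b c'' a) ⊆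
              univ.filter fun a => b c a ≠ !(b c'' a) := by
            intro a ha
            have h10 := (Finset.mem_filter.1 ha).2
            refine Finset.mem_filter.2 ⟨mem_univ a, ?_⟩
            push Not at h10
            rw [h10]
            cases b c'' a <;> simp
          have h11 := Finset.card_le_card h9
          omega
      · rw [hτf]
        by_cases hcc : c'' = c
        · exact Or.inl hcc
        · refine Or.inr ⟨?_, card_diff (b c) (b c'') x hx (hnear c hγc) (hnear c'' (hγ c'' h1))⟩
          have h2 := hγ c'' h1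
          have h3 : ∑ a, γ c'' a * x a = -1 := by
            by_contra hne
            have h4 : ∑ a, γ c'' a * x a < -1 := lt_of_le_of_ne h2 hne
            have h5 := h.disj c'' c hcc x hx (by rw [abs_of_neg (by linarith)]; linarith)
            have h6 := (abs_lt.1 h5).1
            linarith
          have h4 : ∑ a, γ c'' a * x a + π c'' * t = -1 := h1
          have h5 : π c'' * t = 0 := by linarith
          exact (mul_eq_zero.1 h5).resolve_right ht.ne'
    · -- no label is at `-1`
      push Not at hN
      by_cases hex : ∃ s, Fits x s ∧ s ∈ A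
      · obtain ⟨s, hs, hsA⟩ := hex
        exact ⟨(s, fun _ => true), Finset.mem_union_left _ (Finset.mem_image.2 ⟨s, hsA, rfl⟩), hs,
          fun c => ⟨fun _ => rfl, fun h1 => absurd h1 (hN c)⟩⟩
      · push Not at hex
        have hnA : ∀ s, Fits x s → s ∈ B ∧ s ∉ R := by
          intro s hs
          have h1 := hex s hs
          rw [hA, Finset.mem_sdiff] at h1
          push Not at h1
          exact Finset.mem_sdiff.1 (h1 (mem_univ s))
        set s : Fin k → Bool := fun a => decide (x a = 1) with hs
        have hsf : Fits x s := by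
          intro a
          refine ⟨fun h1 => by simp [hs, h1], fun h1 => ?_⟩
          simp only [hs, h1]
          norm_num
        have hpm : ∀ a, x a = 1 ∨ x a = -1 := by
          intro a
          by_contra hcon
          push Not at hcon
          have hsf' : Fits x (Function.update s a (!(s a))) := by
            intro a'
            by_cases haa : a' = a
            · subst haa
              exact ⟨fun h1 => absurd h1 hcon.1, fun h1 => absurd h1 hcon.2⟩
            · rw [Function.update_of_ne haa]
              exact hsf a'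
          have h1 := hnA s hsf
          have h2 := hnA _ hsf'
          have h3 := par_update s a
          rcases hε with rfl | rfl
          · rcases par_cases s with h4 | h4
            · exact h1.2 (hRpar s h1.1 h4)
            · exact h2.2 (hRpar _ h2.1 (by rw [h3, h4]; norm_num))
          · rcases par_cases s with h4 | h4
            · exact h2.2 (hRpar _ h2.1 (by rw [h3, h4]))
            · exact h1.2 (hRpar s h1.1 h4)
        have hxs : ∀ a, x a = sg (s a) := by
          intro a
          rcases hpm a with h1 | h1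
          · rw [(hsf a).1 h1, h1]; simp [sg]
          · rw [(hsf a).2 h1, h1]; simp [sg]
        obtain ⟨hsB, hsR⟩ := hnA s hsf
        obtain ⟨⟨c, σ⟩, -, hcσ⟩ := Finset.mem_image.1 hsB
        cases σ with
        | true =>
          exfalso
          have e : ∀ a, x a = - sg (b c a) := fun a => by
            rw [hxs a, ← hcσ]
            simp only [cutV, Bool.true_xor, sg_not]
          have h1 : ∑ a, γ c a * x a = - ∑ a, γ c a * sg (b c a) := by
            rw [← Finset.sum_neg_distrib]
            exact Finset.sum_congr rfl fun a _ => by rw [e]; ring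
          have h2 := h.beyond c
          have h3 := (abs_le.1 (hv c)).2
          have h4 := mul_nonneg (hπ c) ht.le
          rw [h1] at h3
          linarith
        | false =>
          have e0 : s = b c := by
            rw [← hcσ]; funext a; simp [cutV]
          have e : ∀ a, x a = sg (b c a) := fun a => by rw [hxs a, e0]
          have h1 : ∀ c', ∑ a, γ c' a * x a = ∑ a, γ c' a * sg (b c a) := fun c' =>
            Finset.sum_congr rfl fun a _ => by rw [e]
          have h2 := h.beyond c
          have h3 : ∀ c', c' ≠ c → |∑ a, γ c' a * x a| < 1 := fun c' hc' =>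
            h.disj c c' (Ne.symm hc') x hx (by rw [h1, abs_of_neg (by linarith)]; linarith)
          by_cases hval : v c = 1
          · exfalso
            refine hsR ?_
            rw [e0]
            refine hRmax c fun c' hc' => ?_
            have h4 := (abs_lt.1 (h3 c' hc')).1
            have h5 := (abs_le.1 (hv c')).2
            have h6 : ∑ a, γ c a * x a + π c * t = 1 := hval
            rw [h1] at h6
            have h7 : π c' * t < π c * t := by linarith
            exact lt_of_mul_lt_mul_right h7 ht.le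
          · refine ⟨(b c, τ c), hSc c, by rw [← e0]; exact hsf, fun c'' => ⟨fun h4 => ?_,
              fun h4 => absurd h4 (hN c'')⟩⟩
            rw [hτt]
            rintro (rfl | ⟨h5, -⟩)
            · exact hval h4
            · by_cases hcc : c'' = c
              · subst hcc; exact hval h4
              · have h6 : ∑ a, γ c'' a * x a + π c'' * t = 1 := h4
                rw [h5, zero_mul, add_zero] at h6
                have h7 := h3 c'' hcc
                rw [h6] at h7
                norm_num at h7

lemma fits_opp {κ : Type} {p q : κ → ℝ} {s : κ → Bool} (hp : Fits p s) (hq : Fits q s) {a : κ}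
    (h1 : p a = 1) (h2 : q a = -1) : False := by
  have e1 := (hp a).1 h1
  have e2 := (hq a).2 h2
  rw [e1] at e2
  exact absurd e2 (by simp)

/-- if no point is cut off by two cuts, then the cuts touch at most -/
lemma disj_of_weak {k : ℕ} (γ γ' : Fin k → ℝ) (w : Fin k → ℝ) (hw : ∀ a, |w a| ≤ 1)
    (hw1 : 1 < ∑ a, γ' a * w a)
    (hO : ∀ y : Fin k → ℝ, (∀ a, |y a| ≤ 1) → |∑ a, γ a * y a| ≤ 1 ∨ |∑ a, γ' a * y a| ≤ 1)
    (y : Fin k → ℝ) (hy : ∀ a, |y a| ≤ 1) (h1 : 1 < |∑ a, γ a * y a|) :
    |∑ a, γ' a * y a| < 1 := by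
  by_contra hcon
  push Not at hcon
  have hle : |∑ a, γ' a * y a| ≤ 1 := (hO y hy).resolve_left (not_le.2 h1)
  have heq : |∑ a, γ' a * y a| = 1 := le_antisymm hle hcon
  -- the vertex `z` on the same side as `y`
  obtain ⟨z, hz, hz1⟩ : ∃ z : Fin k → ℝ, (∀ a, |z a| ≤ 1) ∧
      ∀ s : ℝ, 0 < s → s < 1 → 1 < |(1 - s) * ∑ a, γ' a * y a + s * ∑ a, γ' a * z a| := by
    rcases (abs_eq zero_le_one).1 heq with h2 | h2
    · refine ⟨w, hw, fun s hs hs1 => ?_⟩
      rw [h2]
      refine lt_of_lt_of_le ?_ (le_abs_self _)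
      nlinarith
    · refine ⟨fun a => - w a, fun a => by rw [abs_neg]; exact hw a, fun s hs hs1 => ?_⟩
      simp only [mul_neg, Finset.sum_neg_distrib]
      rw [h2]
      refine lt_of_lt_of_le ?_ (neg_le_abs _)
      nlinarith
  set P := |∑ a, γ a * y a| with hP
  set Q := |∑ a, γ a * z a| with hQ
  have hQ0 : 0 ≤ Q := abs_nonneg _
  have hPQ : 0 < 2 * (P + Q) := by linarith
  set s := (P - 1) / (2 * (P + Q)) with hs
  have hs0 : 0 < s := div_pos (by linarith) hPQ
  have hs1 : s < 1 := by rw [hs, div_lt_one hPQ]; linarith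
  have hs2 : s * (P + Q) = (P - 1) / 2 := by
    rw [hs]; field_simp
  have hlin : ∀ δ : Fin k → ℝ, ∑ a, δ a * ((1 - s) * y a + s * z a) =
      (1 - s) * ∑ a, δ a * y a + s * ∑ a, δ a * z a := by
    intro δ
    rw [Finset.mul_sum, Finset.mul_sum, ← Finset.sum_add_distrib]
    exact Finset.sum_congr rfl fun a _ => by ring
  rcases hO (fun a => (1 - s) * y a + s * z a) (fun a => by
    have h3 : |(1 - s) * y a + s * z a| ≤ |(1 - s) * y a| + |s * z a| := abs_add_le _ _
    rw [abs_mul, abs_mul, abs_of_pos hs0, abs_of_pos (by linarith : (0 : ℝ) < 1 - s)] at h3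
    have h4 := mul_le_mul_of_nonneg_left (hy a) (by linarith : (0 : ℝ) ≤ 1 - s)
    have h5 := mul_le_mul_of_nonneg_left (hz a) hs0.le
    linarith) with h3 | h3
  · rw [hlin] at h3
    have h4 : |(1 - s) * ∑ a, γ a * y a| - |s * ∑ a, γ a * z a| ≤
        |(1 - s) * ∑ a, γ a * y a + s * ∑ a, γ a * z a| := by
      have := abs_sub_abs_le_abs_sub ((1 - s) * ∑ a, γ a * y a) (- (s * ∑ a, γ a * z a))
      rwa [abs_neg, sub_neg_eq_add] at this
    rw [abs_mul, abs_mul, abs_of_pos hs0, abs_of_pos (by linarith : (0 : ℝ) < 1 - s)] at h4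
    rw [← hP, ← hQ] at h4
    nlinarith
  · rw [hlin] at h3
    exact absurd h3 (not_le.2 (hz1 s hs0 hs1))

/-- Common points of the intervals `[g i - c i, g i + c i]`. -/
lemma exists_pt {ι : Type} [Finite ι] [Nonempty ι] (c g : ι → ℝ)
    (h : ∀ i l, |g i - g l| ≤ c i + c l) :
    ∃ t : ℝ, ∀ i, g i - c i ≤ t ∧ t ≤ g i + c i := by
  refine ⟨⨆ i, (g i - c i), fun i => ⟨?_, ?_⟩⟩
  · exact le_ciSup (f := fun i => g i - c i) (Set.finite_range _).bddAbove i
  · refine ciSup_le fun l => ?_
    have := (abs_le.mp (h l i)).2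
    linarith

/-- **Truncated parallelotopes.**  Colouring of families of numbers `g i` with radii `r i`. -/
theorem trunc_col {ι : Type} [Fintype ι] {k : ℕ} (hk : 3 ≤ k) {C : Type} [Fintype C]
    (γ : C → Fin k → ℝ)
    (hV : ∀ c, ∃ v : Fin k → Bool, 1 < ∑ a, γ c a * sg (v a) ∧
      ∀ a, ∑ a', γ c a' * sg (v a') - 2 * (γ c a * sg (v a)) < 1)
    (hO : ∀ c c', c ≠ c' → ∀ y : Fin k → ℝ, (∀ a, |y a| ≤ 1) →
      |∑ a, γ c a * y a| ≤ 1 ∨ |∑ a, γ c' a * y a| ≤ 1)
    (r : ι → ℝ) (hr : ∀ i, 0 < r i) (g : ι → Fin k → ℝ)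
    (h1 : ∀ i l a, |g i a - g l a| ≤ r i + r l)
    (h2 : ∀ i l c, |∑ a, γ c a * g i a - ∑ a, γ c a * g l a| ≤ r i + r l) :
    ∃ col : ι → Fin (2 ^ k), ∀ i l, ((∃ a, g i a - g l a = r i + r l) ∨
      (∃ c, ∑ a, γ c a * g i a - ∑ a, γ c a * g l a = r i + r l)) → col i ≠ col l := by
  classical
  rcases isEmpty_or_nonempty ι with hι | hι
  · exact ⟨fun i => (hι.false i).elim, fun i => (hι.false i).elim⟩
  have hex1 : ∀ a, ∃ t : ℝ, ∀ i, g i a - r i ≤ t ∧ t ≤ g i a + r i := fun a =>
    exists_pt r (fun i => g i a) fun i l => h1 i l a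
  have hex2 : ∀ c, ∃ t : ℝ, ∀ i, (∑ a, γ c a * g i a) - r i ≤ t ∧
      t ≤ (∑ a, γ c a * g i a) + r i := fun c =>
    exists_pt r (fun i => ∑ a, γ c a * g i a) fun i l => h2 i l c
  choose T hT using hex1
  choose U hU using hex2
  choose v hv1 hv2 using hV
  -- the points
  set x : ι → Fin k → ℝ := fun i a => (g i a - T a) / r i with hx
  have hxle : ∀ i a, |x i a| ≤ 1 := by
    intro i a
    have h3 := hT a i
    rw [hx, abs_div, abs_of_pos (hr i), div_le_one (hr i), abs_le]
    constructor <;> linarith [h3.1, h3.2]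
  set P : C → ℝ := fun c => ∑ a, γ c a * T a - U c with hP
  have hval : ∀ i c, (∑ a, γ c a * g i a - U c) / r i = ∑ a, γ c a * x i a + P c * (1 / r i) := by
    intro i c
    have h3 : ∑ a, γ c a * x i a = (∑ a, γ c a * g i a - ∑ a, γ c a * T a) / r i := by
      rw [← Finset.sum_sub_distrib, Finset.sum_div]
      exact Finset.sum_congr rfl fun a _ => by rw [hx]; ring
    rw [h3, hP]
    ring
  set σ : C → ℝ := fun c => if 0 ≤ P c then 1 else -1 with hσ
  have hσabs : ∀ c, |σ c| = 1 := by
    intro c
    simp only [hσ]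
    split_ifs <;> simp
  set γ' : C → Fin k → ℝ := fun c a => σ c * γ c a with hγ'
  have hγsum : ∀ c (y : Fin k → ℝ), ∑ a, γ' c a * y a = σ c * ∑ a, γ c a * y a := by
    intro c y
    rw [Finset.mul_sum]
    exact Finset.sum_congr rfl fun a _ => by rw [hγ']; ring
  set b : C → Fin k → Bool := fun c a => if 0 ≤ P c then !(v c a) else v c a with hb
  have hbs : ∀ c a, σ c * sg (b c a) = - sg (v c a) := by
    intro c a
    simp only [hσ, hb]
    split_ifs
    · rw [sg_not]; ring
    · ring
  have hbsum : ∀ c, ∑ a, γ' c a * sg (b c a) = - ∑ a, γ c a * sg (v c a) := by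
    intro c
    rw [← Finset.sum_neg_distrib]
    refine Finset.sum_congr rfl fun a _ => ?_
    have := hbs c a
    rw [hγ']
    linear_combination γ c a * this
  have hcuts : Cuts γ' b := by
    refine ⟨fun c => ?_, fun c a => ?_, fun c c' hcc y hy h3 => ?_⟩
    · rw [hbsum]; linarith [hv1 c]
    · rw [hbsum]
      have h3 := hbs c a
      have h4 : γ' c a * sg (b c a) = - (γ c a * sg (v c a)) := by
        rw [hγ']
        linear_combination γ c a * h3
      rw [h4]
      linarith [hv2 c a]
    · rw [hγsum, abs_mul, hσabs, one_mul] at h3 ⊢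
      exact disj_of_weak (γ c) (γ c') (fun a => sg (v c' a)) (fun a => (abs_sg _).le) (hv1 c')
        (hO c c' hcc) y hy h3
  have hπ : ∀ c, 0 ≤ σ c * P c := by
    intro c
    simp only [hσ]
    split_ifs with h3
    · rw [one_mul]; exact h3
    · push Not at h3; linarith
  obtain ⟨S, hScard, hS⟩ := cover hk γ' b hcuts (fun c => σ c * P c) hπ
  have hval' : ∀ i c, ∑ a, γ' c a * x i a + σ c * P c * (1 / r i) =
      σ c * ((∑ a, γ c a * g i a - U c) / r i) := by
    intro i c
    rw [hγsum, hval]
    ring
  have hex : ∀ i, ∃ s : S, Fits (x i) s.1.1 ∧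
      Fits (fun c => σ c * ((∑ a, γ c a * g i a - U c) / r i)) s.1.2 := by
    intro i
    obtain ⟨s, hs, hs1, hs2⟩ := hS (x i) (1 / r i) (by have := hr i; positivity) (hxle i)
      (fun c => by
        rw [hval', abs_mul, hσabs, one_mul]
        have h3 := hU c i
        rw [abs_div, abs_of_pos (hr i), div_le_one (hr i), abs_le]
        constructor <;> linarith [h3.1, h3.2])
    refine ⟨⟨s, hs⟩, hs1, fun c => ?_⟩
    have h3 := hs2 c
    simp only at h3
    rw [hval'] at h3
    exact h3
  choose p hp1 hp2 using hex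
  obtain ⟨emb⟩ : Nonempty (S ↪ Fin (2 ^ k)) := by
    rw [Function.Embedding.nonempty_iff_card_le, Fintype.card_coe, Fintype.card_fin]
    exact hScard
  refine ⟨fun i => emb (p i), fun i l hil heq => ?_⟩
  have hpp : p i = p l := emb.injective heq
  rcases hil with ⟨a, ha⟩ | ⟨c, hc⟩
  · have h3 := (hT a i).1
    have h4 := (hT a l).2
    have h5 : x i a = 1 := by
      have : g i a - T a = r i := by linarith
      rw [hx]; simp only [this]; exact div_self (hr i).ne'
    have h6 : x l a = -1 := by
      have : g l a - T a = - r l := by linarith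
      rw [hx]; simp only [this]; rw [neg_div, div_self (hr l).ne']
    have h7 := hp1 l
    rw [← hpp] at h7
    exact fits_opp (hp1 i) h7 h5 h6
  · have h3 := (hU c i).1
    have h4 := (hU c l).2
    have h5 : (∑ a, γ c a * g i a - U c) / r i = 1 := by
      have : ∑ a, γ c a * g i a - U c = r i := by linarith
      rw [this]; exact div_self (hr i).ne'
    have h6 : (∑ a, γ c a * g l a - U c) / r l = -1 := by
      have : ∑ a, γ c a * g l a - U c = - r l := by linarith
      rw [this, neg_div, div_self (hr l).ne']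
    have h7 := hp2 l
    rw [← hpp] at h7
    have h8 := hp2 i
    have h9 : σ c = 1 ∨ σ c = -1 := by
      simp only [hσ]; split_ifs
      · exact Or.inl rfl
      · exact Or.inr rfl
    rcases h9 with h9 | h9
    · exact fits_opp (a := c) h8 h7 (by simp only [h5, h9, mul_one]) (by simp only [h6, h9]; norm_num)
    · exact fits_opp (a := c) h7 h8 (by simp only [h6, h9]; norm_num) (by simp only [h5, h9]; norm_num)

end C1H
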