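import Pool.Agent.C1G.Pc
import Pool.Agent.C1H.Trunc

/-!
# Truncated parallelotopes have the colouring property
-/

set_option autoImplicit false

namespace C1H

open Finset C1E C1E.Planar

/-- Cuts of the cube `[-1, 1]^k`: the `c`-th one is the pair of half spaces `|γ c · y| > 1`.  It
cuts off a vertex `v` and its opposite, but no neighbour of `v`, and no point of the cube is cut off
by two of the cuts. -/
def CutsVertices {k m : ℕ} (γ : Fin m → Fin k → ℝ) : Prop :=
  (∀ c, ∃ v : Fin k → ℝ, (∀ a, v a = 1 ∨ v a = -1) ∧ 1 < ∑ a, γ c a * v a ∧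
    ∀ a, ∑ a', γ c a' * Function.update v a (-v a) a' < 1) ∧
  ∀ c c', c ≠ c' → ∀ y : Fin k → ℝ, (∀ a, |y a| ≤ 1) →
    |∑ a, γ c a * y a| ≤ 1 ∨ |∑ a, γ c' a * y a| ≤ 1

theorem CutsVertices.bool {k m : ℕ} {γ : Fin m → Fin k → ℝ} (h : CutsVertices γ) (c : Fin m) :
    ∃ v : Fin k → Bool, 1 < ∑ a, γ c a * sg (v a) ∧
      ∀ a, ∑ a', γ c a' * sg (v a') - 2 * (γ c a * sg (v a)) < 1 := by
  classical
  obtain ⟨v, hv, hv1, hv2⟩ := h.1 c
  have hs : ∀ a, sg (decide (v a = 1)) = v a := by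
    intro a
    rcases hv a with h1 | h1
    · rw [h1]; simp [sg]
    · rw [h1]; norm_num [sg]
  refine ⟨fun a => decide (v a = 1), ?_, fun a => ?_⟩
  · simp only [hs]; exact hv1
  · simp only [hs]
    have h1 := hv2 a
    have h2 : ∑ a', γ c a' * Function.update v a (-v a) a' =
        ∑ a', γ c a' * v a' - 2 * (γ c a * v a) := by
      rw [← Finset.add_sum_erase univ _ (mem_univ a), ← Finset.add_sum_erase univ _ (mem_univ a),
        Function.update_self]
      have h3 : ∑ x ∈ univ.erase a, γ c x * Function.update v a (-v a) x =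
          ∑ x ∈ univ.erase a, γ c x * v x := Finset.sum_congr rfl fun x hx => by
        rw [Function.update_of_ne (Finset.ne_of_mem_erase hx)]
      rw [h3]; ring
    rw [← h2]
    exact h1

/-- **Truncated parallelotopes** have the colouring property with `2 ^ k` colours. -/
theorem colB_trunc {V : Type} [NormedAddCommGroup V] [NormedSpace ℝ V] {k : ℕ} (hk : 3 ≤ k)
    {m : ℕ} (f : Fin k → V →L[ℝ] ℝ) (γ : Fin m → Fin k → ℝ) (hγ : CutsVertices γ) (z : V) :
    C1G.ColB {y : V | (∀ a, |f a (y - z)| ≤ 1) ∧ ∀ c, |∑ a, γ c a * f a (y - z)| ≤ 1}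
      (2 ^ k) := by
  classical
  intro n c x hc hm
  set F : Fin k ⊕ Fin m → V →L[ℝ] ℝ := Sum.elim f (fun c => ∑ a, γ c a • f a) with hF
  have hFr : ∀ c v, F (Sum.inr c) v = ∑ a, γ c a * f a v := by
    intro c v
    simp [hF]
  have hbody : {y : V | (∀ a, |f a (y - z)| ≤ 1) ∧ ∀ c, |∑ a, γ c a * f a (y - z)| ≤ 1} =
      slab F z := by
    ext y
    constructor
    · rintro ⟨h1, h2⟩ (a | c)
      · exact h1 a
      · rw [hFr]; exact h2 c
    · intro h
      refine ⟨fun a => h (Sum.inl a), fun c => ?_⟩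
      rw [← hFr]; exact h (Sum.inr c)
  rw [hbody] at hm ⊢
  have hle : ∀ i l p, |F p (x i + c i • z) - F p (x l + c l • z)| ≤ c i + c l := by
    intro i l p
    by_cases hil : i = l
    · subst hil
      simp only [sub_self, abs_zero]
      have := hc i
      linarith
    · exact slab_meet F z (x i) (x l) (c i) (c l) (hc i) (hc l) (hm i l hil) p
  obtain ⟨col, hcol⟩ := trunc_col hk γ hγ.bool hγ.2 c hc (fun i a => f a (x i + c i • z))
    (fun i l a => hle i l (Sum.inl a)) (fun i l q => by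
      have := hle i l (Sum.inr q)
      rw [hFr, hFr] at this
      exact this)
  refine ⟨col, fun i l hil hd he => ?_⟩
  obtain ⟨p, hp⟩ := slab_disj F z (x i) (x l) (c i) (c l) (hc i) (hc l) hd
  have h2 := hle i l p
  have key : ∀ i l, (F p (x i + c i • z) - F p (x l + c l • z) = c i + c l) → col i ≠ col l := by
    intro i l h
    rcases p with a | q
    · exact hcol i l (Or.inl ⟨a, h⟩)
    · rw [hFr, hFr] at h
      exact hcol i l (Or.inr ⟨q, h⟩)
  rcases abs_cases (F p (x i + c i • z) - F p (x l + c l • z)) with ⟨e, _⟩ | ⟨e, _⟩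
  · exact key i l (by linarith) he
  · exact key l i (by linarith) he.symm

/-- The parallelotope `|⟨u a, y - z⟩| ≤ 1` (`a < d`) of `ℝ^d`, cut by the slabs
`|⟨w c, y - z⟩| ≤ 1` (`c < m`), where `w c = ∑ a, γ c a • u a`. -/
def truncBody {d m : ℕ} (u : Fin d → EuclideanSpace ℝ (Fin d)) (γ : Fin m → Fin d → ℝ)
    (z : EuclideanSpace ℝ (Fin d)) : Set (EuclideanSpace ℝ (Fin d)) :=
  {y | (∀ a, |inner ℝ (u a) (y - z)| ≤ 1) ∧ ∀ c, |∑ a, γ c a * inner ℝ (u a) (y - z)| ≤ 1}

/-- Truncated parallelotopes in `ℝ^d`. -/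
theorem colB_truncBody {d m : ℕ} (hd : 3 ≤ d) (u : Fin d → EuclideanSpace ℝ (Fin d))
    (γ : Fin m → Fin d → ℝ) (hγ : CutsVertices γ) (z : EuclideanSpace ℝ (Fin d)) :
    C1G.ColB (truncBody u γ z) (2 ^ d) :=
  colB_trunc hd (fun a => innerSL ℝ (u a)) γ hγ z

end C1H
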